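import Pool.Agent.Y171.CG.Tool

/-!
# Mean deviation of the binomial distribution, and truncation
-/

set_option autoImplicit false

open MeasureTheory Finset Set Filter Topology

namespace Pool.Agent.Y455.CG

open Pool.Agent.Y171.CG

theorem bw_eval (n : ℕ) (p : ℝ) (c : ℕ) : bw n p c = (bernsteinPolynomial ℝ n c).eval p := by
  unfold bw bernsteinPolynomial
  simp

theorem bw_sum (n : ℕ) (p : ℝ) : ∑ c ∈ range (n + 1), bw n p c = 1 := by
  have h := congrArg (Polynomial.eval p) (bernsteinPolynomial.sum ℝ n)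
  rw [Polynomial.eval_finsetSum, Polynomial.eval_one] at h
  rw [← h]
  exact Finset.sum_congr rfl (fun c _ => bw_eval n p c)

theorem bw_var (n : ℕ) (p : ℝ) :
    ∑ c ∈ range (n + 1), bw n p c * ((n : ℝ) * p - c) ^ 2 = n * p * (1 - p) := by
  have h := congrArg (Polynomial.eval p) (bernsteinPolynomial.variance ℝ n)
  rw [Polynomial.eval_finsetSum] at h
  simp only [Polynomial.eval_mul, Polynomial.eval_pow, Polynomial.eval_sub, Polynomial.eval_natCast,
    Polynomial.eval_one, Polynomial.eval_X, nsmul_eq_mul] at h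
  rw [← h]
  refine Finset.sum_congr rfl (fun c _ => ?_)
  rw [bw_eval, mul_comm]

theorem bin : S_BIN := by
  intro n p hp hp1
  have hq : 0 ≤ 1 - p := by linarith
  have hw : ∀ c, 0 ≤ bw n p c := by
    intro c
    unfold bw
    positivity
  apply Real.le_sqrt_of_sq_le
  have h1 := Finset.sum_mul_sq_le_sq_mul_sq (range (n + 1)) (fun c => √(bw n p c))
    (fun c => √(bw n p c) * max ((n : ℝ) * p - c) 0)
  have e1 : ∑ c ∈ range (n + 1), √(bw n p c) * (√(bw n p c) * max ((n : ℝ) * p - c) 0) =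
      ∑ c ∈ range (n + 1), bw n p c * max ((n : ℝ) * p - c) 0 := by
    refine Finset.sum_congr rfl (fun c _ => ?_)
    rw [← mul_assoc, Real.mul_self_sqrt (hw c)]
  have e2 : ∑ c ∈ range (n + 1), √(bw n p c) ^ 2 = 1 := by
    rw [← bw_sum n p]
    refine Finset.sum_congr rfl (fun c _ => ?_)
    rw [Real.sq_sqrt (hw c)]
  have e3 : ∑ c ∈ range (n + 1), (√(bw n p c) * max ((n : ℝ) * p - c) 0) ^ 2 ≤ n * p * (1 - p) := by
    rw [← bw_var n p]
    refine Finset.sum_le_sum (fun c _ => ?_)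
    rw [mul_pow, Real.sq_sqrt (hw c)]
    refine mul_le_mul_of_nonneg_left ?_ (hw c)
    rcases le_total ((n : ℝ) * p - c) 0 with h | h
    · rw [max_eq_right h]
      simpa using sq_nonneg ((n : ℝ) * p - c)
    · rw [max_eq_left h]
  rw [e1, e2, one_mul] at h1
  refine h1.trans (e3.trans ?_)
  have : 0 ≤ (n : ℝ) * p := by positivity
  nlinarith

/-! ### The reflection of the cube -/

theorem mp_refl_nu : MeasurePreserving (fun t : ℝ => 1 - t) nu nu := by
  have h := (Measure.measurePreserving_sub_left (volume : Measure ℝ) 1).restrict_preimage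
    (s := Set.Icc (0 : ℝ) 1) measurableSet_Icc
  have e : (fun t : ℝ => 1 - t) ⁻¹' Set.Icc 0 1 = Set.Icc 0 1 := by
    ext t
    simp only [Set.mem_preimage, Set.mem_Icc]
    constructor <;> rintro ⟨h1, h2⟩ <;> constructor <;> linarith
  rw [e] at h
  exact h

theorem mp_refl_cube (k : ℕ) :
    MeasurePreserving (fun u : Fin k → ℝ => fun i => 1 - u i) (cube k) (cube k) :=
  measurePreserving_pi (fun _ => nu) (fun _ => nu) (fun _ => mp_refl_nu)

theorem cube_refl {k : ℕ} {E : Set (Fin k → ℝ)} (hE : MeasurableSet E) :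
    (cube k).real {u | (fun i => 1 - u i) ∈ E} = (cube k).real E := by
  rw [measureReal_def, measureReal_def]
  congr 1
  exact (mp_refl_cube k).measure_preimage hE.nullMeasurableSet

theorem tr_le {g : ℕ → ℝ} (hg : ∀ r, 2 ≤ r → 0 ≤ g r) (R : ℕ) (r : ℕ) (hr : 2 ≤ r) :
    tr g R r ≤ g r := by
  unfold tr
  split_ifs with h
  · exact le_rfl
  · exact hg r hr

theorem hit_tr {g : ℕ → ℝ} (hg : ∀ r, 2 ≤ r → 0 ≤ g r) (R : ℕ) {k : ℕ} {z : ℝ}
    {u : Fin k → ℝ} (h : Hit (tr g R) (fun _ => 1) z u) : Hit g (fun _ => 1) z u := by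
  obtain ⟨r, h1, h2⟩ := h
  refine ⟨r, h1, h2.trans (cnt_mono (fun i => ?_) z u)⟩
  rw [mul_one, mul_one]
  exact tr_le hg R r h1

theorem one_sub_F (g : ℕ → ℝ) (k : ℕ) (z : ℝ) :
    (cube k).real {u | Hit g (fun _ => 1) z u} = 1 - F g k z := by
  unfold F
  have h := measureReal_compl (μ := cube k) (measurableSet_hit g (fun _ : Fin k => 1) z)
  have e : ({u : Fin k → ℝ | Hit g (fun _ => 1) z u})ᶜ =
      {u : Fin k → ℝ | ¬ Hit g (fun _ => 1) z u} := rfl
  rw [e, probReal_univ] at h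
  linarith

theorem tru : S_TRU := by
  intro k g R z hg hz
  obtain ⟨H, hH⟩ : ∃ H, H = {u : Fin k → ℝ | Hit g (fun _ => 1) z u} := ⟨_, rfl⟩
  obtain ⟨H', hH'⟩ : ∃ H', H' = {u : Fin k → ℝ | Hit (tr g R) (fun _ => 1) z u} := ⟨_, rfl⟩
  have mH : MeasurableSet H := by rw [hH]; exact measurableSet_hit _ _ _
  have mH' : MeasurableSet H' := by rw [hH']; exact measurableSet_hit _ _ _
  have hsub : H' ⊆ H := by
    rw [hH, hH']
    intro u hu
    exact hit_tr hg R hu
  have h1 : (cube k).real (H \ H') = F (tr g R) k z - F g k z := by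
    rw [measureReal_sdiff hsub mH', hH, hH', one_sub_F, one_sub_F]
    ring
  have h2 : (cube k).real {u | (fun i => 1 - u i) ∈ H \ H'} = F (tr g R) k z - F g k z := by
    rw [cube_refl (mH.diff mH'), h1]
  have hcov : {u : Fin k → ℝ | Hit g (fun _ => 1) z u ∨ Hit g (fun _ => 1) z (fun i => 1 - u i)} ⊆
      {u : Fin k → ℝ | Hit (tr g R) (fun _ => 1) z u ∨
        Hit (tr g R) (fun _ => 1) z (fun i => 1 - u i)} ∪ ((H \ H') ∪
          {u | (fun i => 1 - u i) ∈ H \ H'}) := by
    rw [hH, hH']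
    rintro u hu
    simp only [Set.mem_union, Set.mem_ofPred_eq, Set.mem_sdiff]
    simp only [Set.mem_ofPred_eq] at hu
    tauto
  unfold B
  calc (cube k).real {u : Fin k → ℝ | Hit g (fun _ => 1) z u ∨
        Hit g (fun _ => 1) z (fun i => 1 - u i)}
      ≤ (cube k).real ({u : Fin k → ℝ | Hit (tr g R) (fun _ => 1) z u ∨
        Hit (tr g R) (fun _ => 1) z (fun i => 1 - u i)} ∪ ((H \ H') ∪
          {u | (fun i => 1 - u i) ∈ H \ H'})) := measureReal_mono hcov (measure_ne_top _ _)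
    _ ≤ (cube k).real {u : Fin k → ℝ | Hit (tr g R) (fun _ => 1) z u ∨
        Hit (tr g R) (fun _ => 1) z (fun i => 1 - u i)} + (cube k).real ((H \ H') ∪
          {u | (fun i => 1 - u i) ∈ H \ H'}) := measureReal_union_le _ _
    _ ≤ (cube k).real {u : Fin k → ℝ | Hit (tr g R) (fun _ => 1) z u ∨
        Hit (tr g R) (fun _ => 1) z (fun i => 1 - u i)} + ((cube k).real (H \ H') +
          (cube k).real {u | (fun i => 1 - u i) ∈ H \ H'}) :=
        add_le_add le_rfl (measureReal_union_le _ _)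
    _ = _ := by rw [h1, h2]; ring

end Pool.Agent.Y455.CG
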