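import Pool.Agent.Y171.CG.Tool

/-!
# Thinning of independent uniform points
-/

set_option autoImplicit false

open MeasureTheory Finset Set Filter Topology

namespace Pool.Agent.Y455.CG

open Pool.Agent.Y171.CG

/-- no hit, when `N r` points are already counted for `r` -/
def A (g : ℕ → ℝ) (n : ℕ) (N : ℕ → ℕ) (z : ℝ) : Set (Fin n → ℝ) :=
  {u | ∀ r, 2 ≤ r → N r + cnt (fun _ => g r) z u < r}

noncomputable def Q (g : ℕ → ℝ) (n : ℕ) (N : ℕ → ℕ) (z : ℝ) : ENNReal := cube n (A g n N z)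

open scoped Classical in
noncomputable def ind (g : ℕ → ℝ) (x : ℝ) : ℕ → ℕ := fun r => if x < g r then 1 else 0

theorem Q_le_one (g : ℕ → ℝ) (n : ℕ) (N : ℕ → ℕ) (z : ℝ) : Q g n N z ≤ 1 := prob_le_one

theorem F_eq (g : ℕ → ℝ) (n : ℕ) (z : ℝ) : F g n z = (Q g n 0 z).toReal := by
  unfold F Q
  rw [measureReal_def]
  congr 2
  ext u
  simp only [Set.mem_ofPred_eq, Hit, A, Pi.zero_apply, zero_add, mul_one, not_exists, not_and,
    not_le]

theorem cnt_cons {n : ℕ} (c z t : ℝ) (v : Fin n → ℝ) :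
    cnt (fun _ : Fin (n + 1) => c) z (Fin.cons t v : Fin (n + 1) → ℝ) =
      (if t * z < c then 1 else 0) + cnt (fun _ : Fin n => c) z v := by
  unfold cnt
  rw [Finset.card_filter, Finset.card_filter, Fin.sum_univ_succ]
  simp only [Fin.cons_zero, Fin.cons_succ]

theorem measurableSet_A (g : ℕ → ℝ) (n : ℕ) (N : ℕ → ℕ) (z : ℝ) : MeasurableSet (A g n N z) := by
  have : A g n N z = ⋂ r : ℕ, {u | 2 ≤ r → N r + cnt (fun _ => g r) z u < r} := by
    ext u
    simp [A]
  rw [this]
  refine MeasurableSet.iInter fun r => ?_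
  by_cases h : 2 ≤ r
  · simp only [h, true_imp_iff]
    have hm : Measurable fun u : Fin n → ℝ => N r + cnt (fun _ => g r) z u :=
      (measurable_cnt _ _).const_add _
    exact measurableSet_lt hm measurable_const
  · simp [h]

theorem mem_A_cons {g : ℕ → ℝ} {n : ℕ} {N : ℕ → ℕ} {z t : ℝ} {v : Fin n → ℝ} :
    (Fin.cons t v : Fin (n + 1) → ℝ) ∈ A g (n + 1) N z ↔ v ∈ A g n (N + ind g (t * z)) z := by
  unfold A
  simp only [Set.mem_ofPred_eq]
  refine forall_congr' fun r => imp_congr_right fun _ => ?_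
  rw [cnt_cons, Pi.add_apply, ind, add_assoc]

theorem Q_succ (g : ℕ → ℝ) (n : ℕ) (N : ℕ → ℕ) (z : ℝ) :
    Q g (n + 1) N z = ∫⁻ t, Q g n (N + ind g (t * z)) z ∂nu := by
  have h := measurePreserving_piFinSuccAbove (fun _ : Fin (n + 1) => nu) 0
  have hE := measurableSet_A g (n + 1) N z
  have h2 := h.symm.measure_preimage (s := A g (n + 1) N z) hE.nullMeasurableSet
  unfold Q cube
  rw [← h2, Measure.prod_apply ((MeasurableEquiv.measurable _) hE)]
  apply lintegral_congr
  intro t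
  congr 1
  ext v
  rw [← mem_A_cons]
  have e : (MeasurableEquiv.piFinSuccAbove (fun _ : Fin (n + 1) => ℝ) 0).symm (t, v) =
      (Fin.cons t v : Fin (n + 1) → ℝ) := Fin.insertNth_zero' t v
  rw [← e]
  rfl

/-- measurability of the sections -/
theorem measurable_sec (g : ℕ → ℝ) (n : ℕ) (N : ℕ → ℕ) (z w : ℝ) :
    Measurable fun t : ℝ => Q g n (N + ind g (t * z)) w := by
  classical
  have hE : MeasurableSet {q : ℝ × (Fin n → ℝ) | ∀ r, 2 ≤ r →
      (N r + if q.1 * z < g r then 1 else 0) + cnt (fun _ => g r) w q.2 < r} := by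
    have : {q : ℝ × (Fin n → ℝ) | ∀ r, 2 ≤ r →
      (N r + if q.1 * z < g r then 1 else 0) + cnt (fun _ => g r) w q.2 < r} =
      ⋂ r : ℕ, {q : ℝ × (Fin n → ℝ) | 2 ≤ r →
      (N r + if q.1 * z < g r then 1 else 0) + cnt (fun _ => g r) w q.2 < r} := by
      ext u
      simp
    rw [this]
    refine MeasurableSet.iInter fun r => ?_
    by_cases h : 2 ≤ r
    · simp only [h, true_imp_iff]
      have hm1 : Measurable fun q : ℝ × (Fin n → ℝ) => q.1 * z := by fun_prop
      have hm2 : Measurable fun q : ℝ × (Fin n → ℝ) => (if q.1 * z < g r then 1 else 0 : ℕ) :=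
        Measurable.ite (measurableSet_lt hm1 measurable_const) measurable_const measurable_const
      have hm3 : Measurable fun q : ℝ × (Fin n → ℝ) => cnt (fun _ => g r) w q.2 :=
        (measurable_cnt _ _).comp measurable_snd
      exact measurableSet_lt ((hm2.const_add _).add hm3) measurable_const
    · simp [h]
  exact measurable_measure_prodMk_left hE

theorem lint_split (p : ℝ) (hp : 0 < p) (hp1 : p ≤ 1) (f : ℝ → ENNReal) :
    ∫⁻ t, f t ∂nu = ENNReal.ofReal p * ∫⁻ t, f (p * t) ∂nu + ∫⁻ t in Set.Ioc p 1, f t := by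
  unfold nu
  rw [← Set.Icc_union_Ioc_eq_Icc hp.le hp1, lintegral_union measurableSet_Ioc]
  · rw [Set.Icc_union_Ioc_eq_Icc hp.le hp1]
    congr 1
    have himg : (fun t : ℝ => p * t) '' (Set.Icc 0 1) = Set.Icc 0 p := by
      rw [Set.image_mul_left_Icc hp.le zero_le_one, mul_zero, mul_one]
    rw [← himg, lintegral_image_eq_lintegral_abs_deriv_mul (f' := fun _ => p) measurableSet_Icc
      (fun x _ => by simpa using ((hasDerivAt_id x).const_mul p).hasDerivWithinAt)
      (fun a _ b _ hab => mul_left_cancel₀ hp.ne' hab)]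
    rw [abs_of_pos hp, lintegral_const_mul' _ _ ENNReal.ofReal_ne_top]
  · rw [Set.disjoint_left]
    rintro x ⟨_, h1⟩ ⟨h2, _⟩
    exact absurd h1 (not_le.mpr h2)

theorem bw_nonneg (n : ℕ) {p : ℝ} (hp : 0 < p) (hp1 : p ≤ 1) (c : ℕ) : 0 ≤ bw n p c := by
  unfold bw
  have : 0 ≤ 1 - p := by linarith
  positivity

theorem bw_zero_right (n : ℕ) (p : ℝ) : bw (n + 1) p 0 = (1 - p) * bw n p 0 := by
  unfold bw
  simp only [Nat.choose_zero_right, Nat.cast_one, pow_zero, mul_one, one_mul, tsub_zero]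
  ring

theorem bw_succ (n : ℕ) (p : ℝ) (c : ℕ) :
    bw (n + 1) p (c + 1) = p * bw n p c + (1 - p) * bw n p (c + 1) := by
  unfold bw
  rcases lt_trichotomy c n with h | h | h
  · obtain ⟨k, rfl⟩ : ∃ k, n = c + 1 + k := ⟨n - (c + 1), by omega⟩
    have e1 : c + 1 + k + 1 - (c + 1) = k + 1 := by omega
    have e2 : c + 1 + k - c = k + 1 := by omega
    have e3 : c + 1 + k - (c + 1) = k := by omega
    rw [e1, e2, e3, Nat.choose_succ_succ]
    push_cast
    ring
  · subst h
    simp [Nat.choose_succ_self]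
    ring
  · rw [Nat.choose_eq_zero_of_lt (by omega), Nat.choose_eq_zero_of_lt h,
      Nat.choose_eq_zero_of_lt (by omega)]
    simp

/-- the mixture -/
noncomputable def R (g : ℕ → ℝ) (p : ℝ) (n : ℕ) (N : ℕ → ℕ) (z : ℝ) : ENNReal :=
  ∑ c ∈ range (n + 1), ENNReal.ofReal (bw n p c) * Q g c N z

theorem R_succ (g : ℕ → ℝ) {p : ℝ} (hp : 0 < p) (hp1 : p ≤ 1) (n : ℕ) (N : ℕ → ℕ) (z : ℝ) :
    R g p (n + 1) N z = ENNReal.ofReal p * ∫⁻ t, R g p n (N + ind g (t * z)) z ∂nu +
      ENNReal.ofReal (1 - p) * R g p n N z := by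
  have hq : 0 ≤ 1 - p := by linarith
  have h1 : ∫⁻ t, R g p n (N + ind g (t * z)) z ∂nu =
      ∑ c ∈ range (n + 1), ENNReal.ofReal (bw n p c) * Q g (c + 1) N z := by
    unfold R
    rw [lintegral_finsetSum]
    · refine Finset.sum_congr rfl (fun c _ => ?_)
      rw [lintegral_const_mul _ (measurable_sec g c N z z), Q_succ]
    · intro c _
      exact (measurable_sec g c N z z).const_mul _
  rw [h1]
  unfold R
  rw [Finset.sum_range_succ' (fun c => ENNReal.ofReal (bw (n + 1) p c) * Q g c N z)]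
  have h2 : ∀ c, ENNReal.ofReal (bw (n + 1) p (c + 1)) * Q g (c + 1) N z =
      ENNReal.ofReal p * (ENNReal.ofReal (bw n p c) * Q g (c + 1) N z) +
        ENNReal.ofReal (1 - p) * (ENNReal.ofReal (bw n p (c + 1)) * Q g (c + 1) N z) := by
    intro c
    rw [bw_succ, ENNReal.ofReal_add (mul_nonneg hp.le (bw_nonneg n hp hp1 c))
      (mul_nonneg hq (bw_nonneg n hp hp1 _)), ENNReal.ofReal_mul hp.le, ENNReal.ofReal_mul hq]
    ring
  simp only [h2]
  rw [Finset.sum_add_distrib, ← Finset.mul_sum, ← Finset.mul_sum, bw_zero_right,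
    ENNReal.ofReal_mul hq]
  have h3 : ∑ c ∈ range (n + 1), ENNReal.ofReal (bw n p (c + 1)) * Q g (c + 1) N z +
      ENNReal.ofReal (bw n p 0) * Q g 0 N z =
      ∑ c ∈ range (n + 1), ENNReal.ofReal (bw n p c) * Q g c N z := by
    rw [← Finset.sum_range_succ' (fun c => ENNReal.ofReal (bw n p c) * Q g c N z),
      Finset.sum_range_succ _ (n + 1)]
    have : bw n p (n + 1) = 0 := by
      unfold bw
      rw [Nat.choose_succ_self]
      simp
    rw [this]
    simp
  rw [← h3]
  ring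

theorem Q_zero (g : ℕ → ℝ) (N : ℕ → ℕ) (z w : ℝ) : Q g 0 N z = Q g 0 N w := by
  unfold Q
  congr 1

theorem R_zero (g : ℕ → ℝ) (p : ℝ) (N : ℕ → ℕ) (z w : ℝ) : R g p 0 N z = Q g 0 N w := by
  unfold R
  rw [zero_add, Finset.sum_range_one, Q_zero g N z w]
  simp [bw]

theorem Q_anti (g : ℕ → ℝ) (n : ℕ) {N N' : ℕ → ℕ} (h : N ≤ N') (z : ℝ) :
    Q g n N' z ≤ Q g n N z := by
  unfold Q
  apply measure_mono
  intro u hu r hr
  have h1 := hu r hr
  have h2 : N r ≤ N' r := h r
  omega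

theorem volume_Ioc' (p : ℝ) : volume (Set.Ioc p 1) = ENNReal.ofReal (1 - p) := Real.volume_Ioc

theorem Q_le_R (g : ℕ → ℝ) {p z : ℝ} (hp : 0 < p) (hp1 : p ≤ 1) (n : ℕ) (N : ℕ → ℕ) :
    Q g n N z ≤ R g p n N (p * z) := by
  induction n generalizing N with
  | zero => rw [R_zero g p N (p * z) z]
  | succ n ih =>
    rw [Q_succ, R_succ g hp hp1, lint_split p hp hp1]
    refine add_le_add ?_ ?_
    · refine mul_le_mul_right (lintegral_mono (fun t => ?_)) _
      have e : p * t * z = t * (p * z) := by ring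
      rw [e]
      exact ih _
    · calc ∫⁻ t in Set.Ioc p 1, Q g n (N + ind g (t * z)) z
          ≤ ∫⁻ t in Set.Ioc p 1, R g p n N (p * z) := by
            refine lintegral_mono (fun t => ?_)
            exact (Q_anti g n (le_add_of_nonneg_right (fun _ => Nat.zero_le _)) z).trans (ih N)
        _ = ENNReal.ofReal (1 - p) * R g p n N (p * z) := by
            rw [setLIntegral_const, volume_Ioc', mul_comm]

theorem Q_eq_R (g : ℕ → ℝ) {p z : ℝ} (hp : 0 < p) (hp1 : p ≤ 1) (hz : 0 < z)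
    (hg : ∀ r, g r ≤ p * z) (n : ℕ) (N : ℕ → ℕ) :
    Q g n N z = R g p n N (p * z) := by
  induction n generalizing N with
  | zero => rw [R_zero g p N (p * z) z]
  | succ n ih =>
    rw [Q_succ, R_succ g hp hp1, lint_split p hp hp1]
    congr 1
    · congr 1
      refine lintegral_congr (fun t => ?_)
      have e : p * t * z = t * (p * z) := by ring
      rw [e]
      exact ih _
    · calc ∫⁻ t in Set.Ioc p 1, Q g n (N + ind g (t * z)) z
          = ∫⁻ t in Set.Ioc p 1, R g p n N (p * z) := by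
            refine setLIntegral_congr_fun measurableSet_Ioc (fun t ht => ?_)
            have hi : ind g (t * z) = 0 := by
              funext r
              unfold ind
              rw [if_neg]
              · rfl
              · have h1 := hg r
                have h2 := mul_lt_mul_of_pos_right ht.1 hz
                linarith
            simp only [hi, add_zero]
            exact ih N
        _ = ENNReal.ofReal (1 - p) * R g p n N (p * z) := by
            rw [setLIntegral_const, volume_Ioc', mul_comm]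

theorem R_toReal (g : ℕ → ℝ) {p : ℝ} (hp : 0 < p) (hp1 : p ≤ 1) (n : ℕ) (z : ℝ) :
    (R g p n 0 z).toReal = ∑ c ∈ range (n + 1), bw n p c * F g c z := by
  unfold R
  rw [ENNReal.toReal_sum]
  · refine Finset.sum_congr rfl (fun c _ => ?_)
    rw [ENNReal.toReal_mul, ENNReal.toReal_ofReal (bw_nonneg n hp hp1 c), F_eq]
  · intro c _
    exact ENNReal.mul_ne_top ENNReal.ofReal_ne_top ((Q_le_one g c 0 z).trans_lt ENNReal.one_lt_top).ne

theorem R_ne_top (g : ℕ → ℝ) (p : ℝ) (n : ℕ) (N : ℕ → ℕ) (z : ℝ) : R g p n N z ≠ ⊤ := by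
  unfold R
  refine (ENNReal.sum_lt_top.mpr (fun c _ => ?_)).ne
  exact ENNReal.mul_lt_top ENNReal.ofReal_lt_top ((Q_le_one g c N z).trans_lt ENNReal.one_lt_top)

theorem thl : S_THL := by
  intro g n p z hp hp1 _
  rw [F_eq, ← R_toReal g hp hp1]
  exact ENNReal.toReal_mono (R_ne_top _ _ _ _ _) (Q_le_R g hp hp1 n 0)

theorem F_congr {g g' : ℕ → ℝ} {n : ℕ} (h : ∀ r, 2 ≤ r → r ≤ n → g r = g' r) (z : ℝ) :
    F g n z = F g' n z := by
  unfold F
  congr 1
  ext u
  simp only [Set.mem_ofPred_eq, Hit]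
  apply not_congr
  constructor
  · rintro ⟨r, h1, h2⟩
    refine ⟨r, h1, ?_⟩
    rw [← h r h1 (h2.trans (cnt_le _ _ _))]
    exact h2
  · rintro ⟨r, h1, h2⟩
    refine ⟨r, h1, ?_⟩
    rw [h r h1 (h2.trans (cnt_le _ _ _))]
    exact h2

theorem the : S_THE := by
  classical
  intro g n p z hp hp1 hz hg
  obtain ⟨g', hg'⟩ : ∃ g' : ℕ → ℝ, g' = fun r => if 2 ≤ r ∧ r ≤ n then g r else 0 := ⟨_, rfl⟩
  have h1 : ∀ r, g' r ≤ p * z := by
    intro r
    rw [hg']
    by_cases h : 2 ≤ r ∧ r ≤ n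
    · simp only [h, and_self, if_true]
      exact hg r h.1 h.2
    · simp only [h, if_false]
      positivity
  have h2 : ∀ r, 2 ≤ r → r ≤ n → g r = g' r := by
    intro r hr hrn
    rw [hg']
    simp only [hr, hrn, and_self, if_true]
  have h3 := Q_eq_R g' hp hp1 hz h1 n 0
  rw [F_congr h2 z, F_eq, h3, R_toReal g' hp hp1]
  refine Finset.sum_congr rfl (fun c hc => ?_)
  rw [F_congr (g := g) (g' := g') (fun r hr hrc => h2 r hr
    (hrc.trans (Nat.lt_succ_iff.mp (Finset.mem_range.mp hc)))) (p * z)]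

end Pool.Agent.Y455.CG
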